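import Pool.Agent.H91.VolProd

set_option autoImplicit false

open MeasureTheory H91.VolProd in
theorem Pool.Agent.Results.MP_31abd3_an.NotMonotone.result :
    ∃ f : ℝ → ℝ, Measurable f ∧ (∀ x, 0 ≤ f x) ∧ Integrable f ∧ 0 < ∫ x, f x ∧
    BaryZero (polar f) ∧ ∃ t1 t2 : ℝ, 0 < t1 ∧ t1 < t2 ∧ vp (flow f t2) < vp (flow f t1) :=
  main
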